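import Pool.Agent.LGG.Bad

set_option autoImplicit false

/-!
# MP_5b54e3_co: the clique size forced by local cliques, uniformly in all three sizes

`Loc s t n G` says that every set of `s` vertices of the graph `G` on `n` vertices contains a
clique of size `t`; the condition of the problem is the case `s = ⌈(log n)^2⌉`, `t = ⌈log n⌉`
(which is in the range of the theorem for `B = 1` and large `n`). For `s ≥ δ t log (n / s)` the
factor `(n / s) ^ (C t / s)` is bounded, so that the order of the forced clique size is exactly
`t log (n / t) / log (s / t)`; for smaller `s` it is `n ^ Θ(t / s)` up to this factor.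
A condition like `log (s / t) ≤ B t` is needed: for `t = 2` and `n = e ^ s` the graphs without an
independent set of size `s` have cliques of size of order `s` (Ramsey).
-/

namespace Pool.Agent.Results.MP_5b54e3_co.UniformSizes

open Pool.Agent.LGD

theorem result : ∀ B : ℝ, 0 < B → ∃ c C r₀ : ℝ, 0 < c ∧ 0 < C ∧ 1 < r₀ ∧
    ∀ n s t : ℕ, s ≤ n → 1 ≤ t → r₀ * t ≤ s → Real.log (s / t) ≤ B * t →
    (∀ G : SimpleGraph (Fin n), Loc s t n G → ∃ Q : Finset (Fin n),
      G.IsClique (Q : Set (Fin n)) ∧
        max (c * (t * Real.log (n / t) / Real.log (s / t))) ((n : ℝ) ^ (c * (t / s))) ≤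
          (Q.card : ℝ)) ∧
    (∃ G : SimpleGraph (Fin n), Loc s t n G ∧ ∀ Q : Finset (Fin n),
      G.IsClique (Q : Set (Fin n)) →
        (Q.card : ℝ) ≤
          C * ((n : ℝ) / s) ^ (C * (t / s)) * (t * Real.log (n / t) / Real.log (s / t))) :=
  fun B hB => w_general Pool.Agent.LGG.wbad B hB

end Pool.Agent.Results.MP_5b54e3_co.UniformSizes
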